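import Pool.Agent.N662.FP.Stm2

set_option autoImplicit false

open MeasureTheory ProbabilityTheory Filter Set
open scoped ENNReal Pointwise Topology

namespace Pool.Agent.N878.FM

open Pool.Agent.N662.FP

lemma aesm (h3 : S_AE) (h4 : S_ME) {Ω : Type} [MeasureSpace Ω]
    [IsProbabilityMeasure (volume : Measure Ω)] {X : Sym2 (ℤ × ℤ) → Ω → ℝ} (hX : Iid X)
    (a v : ℤ × ℤ) : AEStronglyMeasurable (fun ω => D (env X ω) a v) (volume : Measure Ω) := by
  have hm : Measurable fun ω : Ω => D (fun e => max (env X ω e) 0) a v :=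
    (h4 a v).comp (measurable_pi_iff.2 fun e => hX.meas e)
  refine ⟨_, hm.stronglyMeasurable, ?_⟩
  filter_upwards [h3 Ω X hX] with ω hω
  congr 1
  funext e
  exact (max_eq_left (hω e)).symm

/-- convergence in probability of the normalized passage time -/
lemma conv (h3 : S_AE) (h4 : S_ME) {Ω : Type} [MeasureSpace Ω]
    [IsProbabilityMeasure (volume : Measure Ω)] {X : Sym2 (ℤ × ℤ) → Ω → ℝ} (hX : Iid X)
    (z : ℤ × ℤ) (a e : ℝ) (he : 0 < e)
    (h : ∀ᵐ ω ∂(volume : Measure Ω),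
      Tendsto (fun n : ℕ => D (env X ω) 0 ((n : ℤ) • z) / (n : ℝ)) atTop (𝓝 a)) :
    Tendsto (fun n : ℕ => (volume : Measure Ω).real
      {ω | e ≤ |D (env X ω) 0 ((n : ℤ) • z) / (n : ℝ) - a|}) atTop (𝓝 0) := by
  have h5 := tendstoInMeasure_of_tendsto_ae (μ := (volume : Measure Ω))
    (f := fun (n : ℕ) ω => D (env X ω) 0 ((n : ℤ) • z) / (n : ℝ)) (g := fun _ => a)
    (fun n => by
      have h6 := (aesm h3 h4 hX 0 ((n : ℤ) • z)).mul_const ((n : ℝ)⁻¹)
      simpa only [div_eq_mul_inv] using h6) h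
  exact (tendstoInMeasure_iff_measureReal_norm.1 h5) e he

/-- subadditivity of the time constant at lattice points -/
theorem t_SUBZ (h1 : S_TIL) (h2 : S_TRI) (h3 : S_AE) (h4 : S_ME) : S_SUBZ := by
  intro Ω _ _ X hX z w a b c ha hb hc
  by_contra hcon
  push Not at hcon
  set e : ℝ := (c - a - b) / 4 with he
  have hepos : 0 < e := by rw [he]; linarith
  have hA := conv h3 h4 hX z a e hepos ha
  have hB := conv h3 h4 hX w b e hepos hb
  have hC := conv h3 h4 hX (z + w) c e hepos hc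
  have hA' := hA.eventually (gt_mem_nhds (show (0 : ℝ) < 1 / 4 by norm_num))
  have hB' := hB.eventually (gt_mem_nhds (show (0 : ℝ) < 1 / 4 by norm_num))
  have hC' := hC.eventually (gt_mem_nhds (show (0 : ℝ) < 1 / 4 by norm_num))
  obtain ⟨n, hAn, hBn, hCn, hn⟩ :=
    (hA'.and (hB'.and (hC'.and (eventually_ge_atTop 1)))).exists
  have hn0 : (0 : ℝ) < n := by exact_mod_cast hn
  set A : Set Ω := {ω | e ≤ |D (env X ω) 0 ((n : ℤ) • z) / (n : ℝ) - a|} with hAdef
  set B : Set Ω := {ω | n * (b + e) ≤ D (env X ω) ((n : ℤ) • z) ((n : ℤ) • z + (n : ℤ) • w)}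
    with hBdef
  set C : Set Ω := {ω | e ≤ |D (env X ω) 0 ((n : ℤ) • (z + w)) / (n : ℝ) - c|} with hCdef
  set N : Set Ω := {ω | ¬ ∀ e, 0 ≤ env X ω e} with hNdef
  have hBm : (volume : Measure Ω).real B < 1 / 4 := by
    rw [hBdef, h1 Ω X hX ((n : ℤ) • z) ((n : ℤ) • w)]
    refine lt_of_le_of_lt (measureReal_mono ?_) hBn
    intro ω hω
    have h6 : n * (b + e) ≤ D (env X ω) 0 ((n : ℤ) • w) := hω
    have h7 : b + e ≤ D (env X ω) 0 ((n : ℤ) • w) / n := by
      rw [le_div_iff₀ hn0]; linarith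
    show e ≤ |D (env X ω) 0 ((n : ℤ) • w) / (n : ℝ) - b|
    exact le_trans (by linarith) (le_abs_self _)
  have hNm : (volume : Measure Ω).real N = 0 := by
    have h6 : (volume : Measure Ω) N = 0 := ae_iff.1 (h3 Ω X hX)
    rw [measureReal_def, h6]
    rfl
  have hun : (volume : Measure Ω).real (A ∪ (B ∪ (C ∪ N))) < 1 := by
    have h6 := measureReal_union_le (μ := (volume : Measure Ω)) A (B ∪ (C ∪ N))
    have h7 := measureReal_union_le (μ := (volume : Measure Ω)) B (C ∪ N)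
    have h8 := measureReal_union_le (μ := (volume : Measure Ω)) C N
    linarith
  have hex : ∃ ω, ω ∉ A ∪ (B ∪ (C ∪ N)) := by
    by_contra h6
    push Not at h6
    have h7 : A ∪ (B ∪ (C ∪ N)) = univ := eq_univ_of_forall h6
    rw [h7] at hun
    simp at hun
  obtain ⟨ω, hω⟩ := hex
  simp only [mem_union, not_or] at hω
  obtain ⟨hωA, hωB, hωC, hωN⟩ := hω
  have hωN' : ∀ e, 0 ≤ env X ω e := by
    by_contra h6
    exact hωN h6
  have hωA' : |D (env X ω) 0 ((n : ℤ) • z) / (n : ℝ) - a| < e := not_le.1 hωA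
  have hωB' : D (env X ω) ((n : ℤ) • z) ((n : ℤ) • z + (n : ℤ) • w) < n * (b + e) := not_le.1 hωB
  have hωC' : |D (env X ω) 0 ((n : ℤ) • (z + w)) / (n : ℝ) - c| < e := not_le.1 hωC
  have h10 := (abs_lt.1 hωA').2
  have h11 := (abs_lt.1 hωC').1
  have h12 : D (env X ω) 0 ((n : ℤ) • z) < n * (a + e) := by
    have : D (env X ω) 0 ((n : ℤ) • z) / n < a + e := by linarith
    rw [div_lt_iff₀ hn0] at this
    linarith
  have h13 : n * (c - e) < D (env X ω) 0 ((n : ℤ) • (z + w)) := by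
    have : c - e < D (env X ω) 0 ((n : ℤ) • (z + w)) / n := by linarith
    rw [lt_div_iff₀ hn0] at this
    linarith
  have h14 := h2 (env X ω) hωN' 0 ((n : ℤ) • z) ((n : ℤ) • z + (n : ℤ) • w)
  rw [← smul_add] at h14
  rw [← smul_add] at hωB'
  have h15 : n * (c - e) < n * (a + b + 2 * e) := by
    have : (n : ℝ) * (a + b + 2 * e) = n * (a + e) + n * (b + e) := by ring
    linarith
  have h16 : c - e < a + b + 2 * e := lt_of_mul_lt_mul_left h15 hn0.le
  rw [he] at h16
  linarith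

end Pool.Agent.N878.FM
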